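import Pool.Agent.N171.TG.Wn4
import Pool.Agent.R932.PO.Fin2

/-!
# The Tate conjecture for products with an ARBITRARY smooth variety, from the Galois image modulo two

Let `k` be a field, `G` its absolute Galois group, and let `M i` be finitely many motives over `k`
with ALTERNATING polarizations, of weight `w i` and rank `N i ≥ 6`; for instance the (primitive)
cohomology in the middle degree of smooth projective varieties `X i` of odd dimension. Let `U` be an
ARBITRARY smooth variety over `k`, not necessarily proper, and let `W` be its 2-adic cohomology in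
some degree, with some Tate twist: a continuous representation of `G` of dimension `d`, in general mixed
and not semisimple.

**Theorem.** Suppose that the polarizations are integral with odd determinant on lattices stable under
`G` and that the joint image of `G` on these lattices MODULO TWO is large (`LargeModTwo`): there are
`N i + 1` integral vectors with odd mutual products, and each EVEN permutation of these vectors modulo
two is given by an element of `G` which acts trivially on the other lattices modulo two. (For example if
the joint image modulo two contains the product of the groups `Sp(N i, 𝔽₂)`, or only the product of the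
alternating groups of degrees `N i + 1`.) Suppose that the cohomology of `U` modulo two does not
absorb the action on the `i`-th frame (`FreeValues`): for each `i` some element of `G` acts trivially
modulo two on the cohomology of `U` and permutes the frames modulo two, the `i`-th one not trivially; or
`(N i + 1)! > 2 ^ (d ^ 2 + 1)`. Then for ALL tensor words in the motives `M i` and for all classes with
values in `W`, over all finite extensions of `k` (at the prime number two):
* if some `M i` occurs an odd number of times in the word then there are no Tate classes;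
* in a word of weight `2 j` the Tate classes are exactly the combinations of the products
  `T₀ ⊗ x` of a RATIONAL invariant `T₀` of the symplectic Lie algebras (by Weyl's theorem a combination
  of products of polarizations, an algebraic class) and a Tate class `x` of `U` (a vector of `W` on
  which an open subgroup of `G` acts by the power `κ ^ j` of the character of `ℚ₂(-1)`).

So if the cohomology of the `X i` is algebraic outside of the middle degree, then the Tate conjecture for
the smooth variety `∏ (X i) ^ (n i) × U` is EQUIVALENT to the Tate conjecture for `U`, for all exponents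
`n i` and EVERY smooth variety `U` with the property above (at the prime number two). There is no
hypothesis on weights, semisimplicity, compatibility with other prime numbers or dimension (if one
element acts trivially modulo two on the cohomology of `U`), and the field `k` is arbitrary. Since
the degree and the twist are arbitrary, the theorem also reduces the conjecture of Jannsen on all the
spaces `H ^ i (j)` of the product to the same spaces for `U`.

Idea of the proof. The group of the elements of `G` which act trivially modulo two on all the other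
lattices and on `W` still acts on the `i`-th frame through all even permutations; this gives elements
which are congruent to one modulo four on everything else but not scalar modulo four on the `i`-th lattice,
and the Lie algebra of the joint 2-adic image contains the Lie algebra `sp (J i)` with ZERO component on
`W` (`Pool.Agent.N171.TG`, projects Tn and Wn; only even permutations modulo two are used). So the
coordinates of a Tate class are killed by all `sp (J i)`; an element of `sp (J i)` with a basis of
eigenvectors with odd eigenvalues excludes words with an odd number of letters `i`.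
-/

set_option autoImplicit false

namespace Pool.Agent.Results.MP_2a05c8_ag.AnySmoothFactor

open Matrix

/-- the absolute Galois group, with the profinite (Krull) topology -/
abbrev AbsoluteGaloisGroup (k : Type) [Field k] : Type := Gal(SeparableClosure k/k)

/-- the rational matrix as a 2-adic matrix -/
noncomputable abbrev adic {n : ℕ} (J : Matrix (Fin n) (Fin n) ℚ) : Matrix (Fin n) (Fin n) ℚ_[2] :=
  J.map (algebraMap ℚ ℚ_[2])

/-- The 2-adic realizations of motives of rank `N i` and weight `w i` over the field `k`, with
alternating rational polarizations `J i`; `κ` is the character of `ℚ₂(-1)` (the inverse of the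
cyclotomic character) or any other continuous character. -/
structure IsPolarized {k : Type} [Field k] {ι : Type} {N w : ι → ℕ}
    (J : ∀ i, Matrix (Fin (N i)) (Fin (N i)) ℚ) (κ : AbsoluteGaloisGroup k →* ℚ_[2])
    (ρ : ∀ i, AbsoluteGaloisGroup k →* Matrix (Fin (N i)) (Fin (N i)) ℚ_[2]) : Prop where
  alternating : ∀ i, (J i)ᵀ = -J i
  nondegenerate : ∀ i, (J i).det ≠ 0
  continuous_char : Continuous κ
  continuous : ∀ i, Continuous (ρ i)
  similitude : ∀ i g, (ρ i g)ᵀ * adic (J i) * ρ i g = κ g ^ w i • adic (J i)

/-- The image of Galois modulo two is large: the lattices `ℤ₂ ^ N i` are stable, the forms are integral,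
`N i ≥ 6`, the `N i + 1` integral vectors `e i a` have odd products `J i (e i a, e i b)` for
`a ≠ b`, and each even permutation of the vectors `e i a` modulo two is the action of an element of the
Galois group which acts trivially on the other lattices modulo two. -/
structure LargeModTwo {k : Type} [Field k] {ι : Type} {N : ι → ℕ}
    (J : ∀ i, Matrix (Fin (N i)) (Fin (N i)) ℚ)
    (ρ : ∀ i, AbsoluteGaloisGroup k →* Matrix (Fin (N i)) (Fin (N i)) ℚ_[2])
    (e : ∀ i, Fin (N i + 1) → Fin (N i) → ℚ_[2]) : Prop where
  rank : ∀ i, 6 ≤ N i
  integral : ∀ i g a b, ‖ρ i g a b‖ ≤ 1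
  integral_form : ∀ i a b, ‖adic (J i) a b‖ ≤ 1
  integral_vectors : ∀ i a b, ‖e i a b‖ ≤ 1
  products : ∀ i a b, a ≠ b → ‖e i a ⬝ᵥ adic (J i) *ᵥ e i b‖ = 1
  permutations : ∀ i (π : Equiv.Perm (Fin (N i + 1))), Equiv.Perm.sign π = 1 →
    ∃ g : AbsoluteGaloisGroup k, (∀ a b, ‖(ρ i g *ᵥ e i a - e i (π a)) b‖ < 1) ∧
      ∀ j, j ≠ i → ∀ a b, ‖(ρ j g - 1) a b‖ < 1

/-- The representation `τ` on the values (the cohomology of an arbitrary smooth variety) is
continuous and integral, and modulo two it does not absorb the permutations of the frames: for each `i`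
some element of the Galois group acts trivially modulo two on the values and permutes all the frames modulo
two, the `i`-th frame not trivially; or the factorial of `N i + 1` is greater than `2 ^ (d ^ 2 + 1)`. -/
structure FreeValues {k : Type} [Field k] {ι : Type} {N : ι → ℕ} {d : ℕ}
    (ρ : ∀ i, AbsoluteGaloisGroup k →* Matrix (Fin (N i)) (Fin (N i)) ℚ_[2])
    (e : ∀ i, Fin (N i + 1) → Fin (N i) → ℚ_[2])
    (τ : AbsoluteGaloisGroup k →* Matrix (Fin d) (Fin d) ℚ_[2]) : Prop where
  continuous : Continuous τ
  integral : ∀ g a b, ‖τ g a b‖ ≤ 1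
  free : ∀ i, 2 ^ (d ^ 2 + 1) < (N i + 1).factorial ∨
    ∃ (g : AbsoluteGaloisGroup k) (π : ∀ j, Equiv.Perm (Fin (N j + 1))),
      (∀ a b, ‖(τ g - 1) a b‖ < 1) ∧ π i ≠ 1 ∧
        ∀ j a b, ‖(ρ j g *ᵥ e j a - e j (π j a)) b‖ < 1

/-- the value of the multilinear form with the coefficients `T` -/
def value {F : Type} [Field F] {m : ℕ} {n : Fin m → ℕ} (T : (∀ t, Fin (n t)) → F)
    (v : ∀ t, Fin (n t) → F) : F :=
  ∑ r, T r * ∏ t, v t (r t)

/-- the value of the multilinear map with the coefficients `T` and with values in `F ^ d` -/
def vectorValue {F : Type} [Field F] {m d : ℕ} {n : Fin m → ℕ} (T : (∀ t, Fin (n t)) → Fin d → F)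
    (v : ∀ t, Fin (n t) → F) : Fin d → F :=
  ∑ r, (∏ t, v t (r t)) • T r

/-- the multilinear map on the tensor word `a`, with values in the representation `τ`, is a Tate class:
it is equivariant for an open subgroup of the Galois group -/
def IsTate {k : Type} [Field k] {ι : Type} {N : ι → ℕ} {d : ℕ}
    (ρ : ∀ i, AbsoluteGaloisGroup k →* Matrix (Fin (N i)) (Fin (N i)) ℚ_[2])
    (τ : AbsoluteGaloisGroup k →* Matrix (Fin d) (Fin d) ℚ_[2]) {m : ℕ} (a : Fin m → ι)
    (T : (∀ t, Fin (N (a t))) → Fin d → ℚ_[2]) : Prop :=
  ∃ H : Subgroup (AbsoluteGaloisGroup k), IsOpen (H : Set (AbsoluteGaloisGroup k)) ∧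
    ∀ σ ∈ H, ∀ v : ∀ t, Fin (N (a t)) → ℚ_[2],
      vectorValue T (fun t => ρ (a t) σ *ᵥ v t) = τ σ *ᵥ vectorValue T v

/-- the vector is a Tate class: an open subgroup of the Galois group multiplies it by `κ ^ j` -/
def IsTateVector {k : Type} [Field k] {d : ℕ}
    (τ : AbsoluteGaloisGroup k →* Matrix (Fin d) (Fin d) ℚ_[2])
    (κ : AbsoluteGaloisGroup k →* ℚ_[2]) (j : ℕ) (x : Fin d → ℚ_[2]) : Prop :=
  ∃ H : Subgroup (AbsoluteGaloisGroup k), IsOpen (H : Set (AbsoluteGaloisGroup k)) ∧
    ∀ σ ∈ H, τ σ *ᵥ x = κ σ ^ j • x

/-- the multilinear form with rational coefficients on the tensor word `a` is killed by the product of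
the Lie algebras of the forms -/
def IsRationalInvariant {ι : Type} {N : ι → ℕ} (J : ∀ i, Matrix (Fin (N i)) (Fin (N i)) ℚ) {m : ℕ}
    (a : Fin m → ι) (T : (∀ t, Fin (N (a t))) → ℚ) : Prop :=
  ∀ X : ∀ i, Matrix (Fin (N i)) (Fin (N i)) ℚ, (∀ i, (X i)ᵀ * J i + J i * X i = 0) →
    ∀ v : ∀ t, Fin (N (a t)) → ℚ, ∑ t, value T (Function.update v t (X (a t) *ᵥ v t)) = 0

theorem result {k : Type} [Field k] {ι : Type} [Fintype ι] {N w : ι → ℕ}
    (J : ∀ i, Matrix (Fin (N i)) (Fin (N i)) ℚ) (κ : AbsoluteGaloisGroup k →* ℚ_[2])
    (ρ : ∀ i, AbsoluteGaloisGroup k →* Matrix (Fin (N i)) (Fin (N i)) ℚ_[2])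
    (h : IsPolarized (w := w) J κ ρ)
    -- the hypothesis on the image modulo two
    (e : ∀ i, Fin (N i + 1) → Fin (N i) → ℚ_[2]) (h2 : LargeModTwo J ρ e)
    -- the cohomology of an arbitrary smooth variety
    {d : ℕ} (τ : AbsoluteGaloisGroup k →* Matrix (Fin d) (Fin d) ℚ_[2]) (hτ : FreeValues ρ e τ)
    -- all tensor words
    (m : ℕ) (a : Fin m → ι) :
    -- (a) no Tate classes if a letter occurs an odd number of times
    (∀ i, Odd (Nat.card {t // a t = i}) → ∀ T, IsTate ρ τ a T → T = 0) ∧
    -- (b) the Tate classes in a word of weight `2 j`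
    (∀ j, ∑ t, w (a t) = 2 * j → ∀ T, IsTate ρ τ a T ↔
      T ∈ Submodule.span ℚ_[2] {T' | ∃ T₀ x, IsRationalInvariant J a T₀ ∧ IsTateVector τ κ j x ∧
        T' = fun r => (T₀ r : ℚ_[2]) • x}) := by
  classical
  have hpos : ∀ i, 0 < N i := fun i => by have := h2.rank i; omega
  have hdet2 : ∀ i, (adic (J i)).det ≠ 0 := fun i =>
    Pool.Agent.R932.PO.det_map_ne (algebraMap ℚ ℚ_[2]) (h.nondegenerate i)
  have halt2 : ∀ i, (adic (J i))ᵀ = -adic (J i) := fun i =>
    (Pool.Agent.R932.PO.Fits.map (κ := .sym) (algebraMap ℚ ℚ_[2])
      (show Pool.Agent.R932.PO.Fits .sym (J i) from ⟨h.alternating i, hpos i⟩)).1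
  have hform : ∀ i, Pool.Agent.R932.PO.IsForm (adic (J i)) := fun i => ⟨Or.inr (halt2 i), hdet2 i⟩
  have hfull : ∀ X, (∀ i, Pool.Agent.Y142.ZS.SpLie (Pool.Agent.R932.PO.JL J 2 i) (X i)) →
      Pool.Agent.N171.TG.WTan ρ τ X := fun X hX =>
    Pool.Agent.N171.TG.wtan_of_large ρ (fun i => adic (J i)) (fun i => (powMonoidHom (w i)).comp κ)
      (fun i => Pool.Agent.R932.OP.even_of_alt (halt2 i) (hdet2 i)) h2.rank halt2 h2.integral
      h2.integral_form (fun i g => h.similitude i g) e h2.integral_vectors h2.products
      h2.permutations τ hτ.integral hτ.free X hX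
  refine ⟨fun i hi T hT => ?_, fun j hj T => ?_⟩
  · funext r
    funext b
    have h3 := Pool.Agent.N171.TG.coord_killed (J := Pool.Agent.R932.PO.JL J 2) h.continuous
      hτ.continuous hfull hT b
    exact congrFun (Pool.Agent.N171.TG.killed_odd (hpos i) (halt2 i) (hdet2 i) hi h3) r
  · have h3 := Pool.Agent.N171.TG.tateW_iff (J := Pool.Agent.R932.PO.JL J 2) h.continuous
      hτ.continuous hform hpos h.continuous_char h.similitude hfull hj T
    refine h3.trans ⟨fun hT => ?_, fun hT => ?_⟩
    · refine Submodule.span_le.2 ?_ hT
      rintro T' ⟨I, x, hI, hx, rfl⟩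
      have h4 := (Pool.Agent.R932.PO.killed_span (k₀ := ℚ) (K := ℚ_[2]) (J := J) (a := a)).1 hI
      induction h4 using Submodule.span_induction with
      | mem I hI' =>
        obtain ⟨T₀, h5, rfl⟩ := hI'
        exact Submodule.subset_span ⟨T₀, x, h5, hx, rfl⟩
      | zero =>
        have h6 : Pool.Agent.N171.TG.tw (0 : (∀ t, Fin (N (a t))) → ℚ_[2]) x = 0 := by
          funext r
          exact zero_smul _ _
        rw [h6]
        exact Submodule.zero_mem _
      | add I I' hI1 hI2 h5 h6 =>
        have h7 : Pool.Agent.N171.TG.tw (I + I') x =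
            Pool.Agent.N171.TG.tw I x + Pool.Agent.N171.TG.tw I' x := by
          funext r
          exact add_smul _ _ _
        rw [h7]
        exact Submodule.add_mem _ (h5 (Pool.Agent.R932.PO.killed_span.2 hI1))
          (h6 (Pool.Agent.R932.PO.killed_span.2 hI2))
      | smul c I hI1 h5 =>
        have h7 : Pool.Agent.N171.TG.tw (c • I) x = c • Pool.Agent.N171.TG.tw I x := by
          funext r
          exact smul_assoc c (I r) x
        rw [h7]
        exact Submodule.smul_mem _ c (h5 (Pool.Agent.R932.PO.killed_span.2 hI1))
    · refine Submodule.span_mono ?_ hT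
      rintro T' ⟨T₀, x, h5, hx, rfl⟩
      exact ⟨_, x, Pool.Agent.R932.PO.killed_up h5, hx, rfl⟩

end Pool.Agent.Results.MP_2a05c8_ag.AnySmoothFactor
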