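import Pool.Agent.N179.FO.Fin

/-!
# The Tate conjecture for the products of K3 surfaces whose reductions at one place have different
# heights with arbitrary smooth varieties, and for their open subvarieties

Let `k₀` be a finitely generated field, for example a number field, `Γ` its Galois group, `W` the
`ℓ`-adic cohomology of the smooth projective varieties over the separable closure with coefficients in
an algebraic closure of `ℚ_ℓ`, and `χ` the inverse of the cyclotomic character (so that
`g c = χ(g)^j c` for `c ∈ H^(2j)` says that `c` is invariant in `H^(2j)(j)`). Let `v` be **one** place of
`k₀` (a closed point of a model), with the residue field with `q = p ^ m` elements, `p ≠ ℓ`, and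
`F ∈ Γ` a geometric Frobenius element at `v`. The theorem is proved for an abstract Weil cohomology
theory with an action of a group and one element `F` of it.

Let `X i` be K3 surfaces over `k₀` with good reduction at `v`, of finite height `h i`
(`HasK3Reduction` with `n i = 1`: the eigenvalues of `F` on the transcendental cohomology `T i` of
`X i` are, up to roots of unity, `q` and the conjugates of a number `q α i`, where all powers of `α i`
generate a CM field `E i`, all complex absolute values of `α i` are one, the `p`-adic embeddings with
`|α i| > 1` belong to one place and there `|α i| = q ^ (1 / h i)`; the numbers `q α i` occur on every
nonzero subspace of `T i` which is stable under an open subgroup. For K3 surfaces the last statement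
follows from the theorems on the endomorphisms of `T i` (Zarhin, Tankeev, André, Madapusi Pera).)
`b i` is the number of the eigenvalues `q α i` with multiplicities, so `22` minus the geometric Picard
number of the reduction at `v`. More generally `X i` may be a variety for which the eigenvalues of `F`
on the transcendental cohomology are products of powers of `q` and of at most `n i` conjugates of one
number `α i` as above: cubic fourfolds (`n = 1`), powers of K3 surfaces and their Hilbert schemes
of points, for which the Tate conjecture is known.

Let `U` be **any smooth variety** over `k₀`, **not necessarily proper** (`AnyVar`): its cohomology `M` is
a finite-dimensional graded space with an action of `Γ`, and there are the spaces `cyc V j` of the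
combinations of the classes of cycles of codimension `j` on `V × U`, in `H(V × U) = H(V) ⊗ M`, for all
smooth projective `V`, stable under pull-backs by morphisms of `V`, products with cycles on `V`, and
push-forward along the projections `V × V' × U ⟶ V' × U`. Let `Z` be a smooth projective variety, for
example a point, and `G` a set of rational numbers which contains `0`, such that the eigenvalues of
`F` on the cohomology of `Z × U` of even weight `w` have slopes in `w / 2 + G` (`SlopesTimes`). Suppose
(`Admissible`) that

* integers `a i`, `|a i| ≤ n i`, such that `∑ a i / h i` belongs to `G` are zero, and that `n i ≤ 2`, or
  `n i = 3` and `(d i, m i) ∉ exceptionalPairs`, or `m i` is odd and `(d i, m i) ∉ exceptionalOddPairs`,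
  where `[E i : ℚ] = 2 d i` and `m i` is the local degree; or
* (`G = {0}`) this only for the `a i` with index `i` in a set of indices (the `Isolated` ones), and for
  the other indices only that `n i = 1`, that the `h i` are different, and that there are not three such
  indices with `(h, b) = (2, 4), (3, 6), (6, 12)` (the bounds `h ≤ 11`, `b ≤ 23` hold for all K3
  surfaces).

**Theorem.** Let `Y` be the product of some of the `X i` and `Z`.

1. The Tate conjecture for `Y × U` (cycles of all codimensions, all finite extensions of `k₀`) is
   equivalent to the Tate conjecture for `Z × U`.
2. The same holds for the open subvarieties: `TateOpens` for `Y × U` is equivalent to `TateOpens` for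
   `Z × U`. Here `TateOpens` says that for all `j` the classes `c ∈ H^(2j)(Y × U)` for which
   `g c - χ(g)^j c`, `g` in an open subgroup, are combinations of classes of cycles of codimension `j`
   are such combinations. If `Y × U` is projective, this is the Tate conjecture in codimension `j` for
   all open subvarieties of `Y × U` with complement of codimension at least `j`: for such an open `O`, by
   weights, all invariants of `H^(2j)(O)(j)` come from `H^(2j)(Y × U)(j)`, and the kernel of the
   restriction is the space of the combinations of the components of codimension `j` of the
   complement. (It is stronger than the Tate conjecture for `Y × U`: if the action of `Γ` is not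
   semisimple, such a class need not come from an invariant class.)

In particular:

* **for all products `X` of K3 surfaces over a number field (or any finitely generated field) whose
  reductions at one place have finite, pairwise different heights (not `2, 3, 6` with the Picard
  numbers `18, 16, 10`), and for every smooth curve `U`, proper or not, the Tate conjecture holds for
  `X × U` and for its open subvarieties** (of the type above): the eigenvalues of weight two on
  `H^1(U)` have slope one, those of weight one are not restricted. The same holds for all `U` for which
  the eigenvalues of even weight `w` have slope `w / 2`, like tori, homogeneous spaces of linear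
  groups, complements of arrangements of hyperplanes, moduli of pointed rational curves: their
  Tate classes and those of `X × U` are known to be algebraic as soon as those of `U` are;
* `G` the integers: let `X` be a K3 surface whose reduction at one place `v` has a finite height
  `h > 1` (or the product of two with different heights greater than one) and `U` **any** smooth
  variety, proper or not, with integral slopes in even weights at `v`, for instance an open subvariety
  of a variety with ordinary reduction whose boundary components and their intersections have
  ordinary reduction. Then the Tate conjecture for `X × U` is equivalent to the one for `U`.

There is no hypothesis on monodromy groups or endomorphisms of `U`, and the cohomology of `U` is not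
assumed to be semisimple or pure.

The idea: the contractions of a Tate class on `X i × Y × U` with the linear forms on the cohomology of
`Y × U` span a subspace of `T i` (after the projection) which is stable under an open subgroup. If
it is not zero then it contains an eigenvector of a power of `F` with an eigenvalue which is not a power
of `q`, and the inverse eigenvalue (up to a power of `q`) occurs on `Y × U`. The slopes exclude such
relations (the arithmetic is the one of `MP_021685_ag.K3SurfacesOfDifferentHeights`). For classes which
are only invariant modulo classes of cycles one applies this first to the cycles and then to the class.
-/

set_option autoImplicit false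

open CategoryTheory AlgebraicGeometry NumberField

universe u v w

namespace Pool.Agent.Results.MP_2a05c8_ag.DifferentHeightsTimesSmooth

open Pool.Agent.H914 Pool.Agent.TH125.Gal Pool.Agent.W517.K3 Pool.Agent.N179.TL
  Pool.Agent.N179.FG Pool.Agent.N179.FO VarClass Obj WeilCohomology

/-- **The Tate conjecture for the products of K3 surfaces whose reductions at one place have different
heights with arbitrary smooth varieties, and for the open subvarieties of these products.** -/
theorem result {k : Type u} [Field k] {𝒱 : VarClass k} {ops : CycleOps 𝒱}
    {W : WeilCohomology.{u, v} ops} [IsAlgClosed W.K] {Γ : Type w} [Group Γ] (χ : Γ →* W.Kˣ)
    (F : Γ) (p m : ℕ) [Fact p.Prime] (hm : 0 < m) (hχ : (χ F : W.K) = (p : W.K) ^ m)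
    {r : ℕ} (X : Fin r → GVar W Γ) (E : Fin r → Type) [∀ i, Field (E i)]
    [∀ i, NumberField (E i)] [∀ i, IsCMField (E i)] (α : ∀ i, E i) (h b n : Fin r → ℕ)
    (hX : ∀ i, HasK3Reduction χ F p m (X i) (α i) (h i) (b i) (n i)) (G : Set ℚ)
    (hA : Admissible G h b (fun i => Module.finrank ℚ (E i) / 2)
      (fun i => localDegree p (α i)) n)
    (Z : GVar W Γ) (U : AnyVar W Γ) (hU : SlopesTimes F p m G Z U) (S : Finset (Fin r))
    (Y : GVar W Γ) (hY : Tower X Z S Y) :
    (TateTimes χ Y U ↔ TateTimes χ Z U) ∧
      (CyclesDefined χ Y U → (TateOpens χ Y U ↔ TateOpens χ Z U)) :=
  ⟨tower_times hm hχ hX hA hU hY, fun hd => tower_opens hm hχ hX hA hU hY hd⟩

end Pool.Agent.Results.MP_2a05c8_ag.DifferentHeightsTimesSmooth
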