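import Pool.Agent.N978.TP.Main
import Pool.Agent.N978.TP.CN
import Pool.Agent.N592.HP.SV
import Pool.Agent.N279.HP.DV

/-!
# Tate classes on products of random members of families with arbitrary smooth varieties

Let `A` be a finite set. For `a` in `A` let `M a i` be finitely many families of polarized pure
motives of odd weight `w a` with alternating polarizations over an open subset `U a` (the complement
of the zeros of the binary form `D a`) of the projective line over `ℚ`. The `M a i t` are the members
at the rational points `t` of `U a`, and `R a t` are their `ℓ`-adic realizations of dimension
`n a i > 0`, for all `ℓ`. Suppose that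

* each `M a i` has maximally unipotent monodromy (one Jordan block) at some closed point of the
  projective line (the zeros of the binary form `C a i`), and no other `M a j` of the same dimension
  has maximally unipotent monodromy there;
* each `M a i` of dimension at least 4 has, at another closed point (the zeros of `C' a i`),
  monodromy of infinite order which is not maximally unipotent, for example a Picard-Lefschetz
  transvection; or three of the Frobenius eigenvalues of ONE member are multiplicatively
  independent, at ONE prime number.

For example, the `M a` may be the mirror quintic family and the other families of Calabi-Yau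
threefolds with a point of maximally unipotent monodromy. Let `K` be any natural number.

Theorem. For 100 percent of the families `(t a)` of rational numbers (independent parameters, ordered
by height), and for EVERY prime number `ℓ` and ALL representations `W` of the Galois group of `ℚ` with
the following properties: the inertia groups at the primes `p ≠ ℓ` act quasi-unipotently; and at all
but at most `K` primes `p ≠ ℓ`, a positive power of each element `τ` of the inertia group satisfies
`(τ - 1) ^ (n a i - 1) = 0`, for all `a`, `i`. For all `s` and `b`, all the Tate classes in
`V ^ {⊗ s} ⊗ W ^ {⊗ b}`, where `V` is the sum of the `ℓ`-adic realizations of the `M a i (t a)`, are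
linear combinations of products of the polarizations and Tate classes in `W ^ {⊗ b}` (over all finite
extensions of `ℚ`, all Tate twists).

`W` is the dual of the `ℓ`-adic cohomology of an ARBITRARY smooth variety `U` over `ℚ`, proper or not,
or of a sum of these. By Grothendieck's theorem the first property always holds, and the second one
holds at all primes for the cohomology of degree `≤ n - 2` of all smooth projective varieties (`n` is
the least of the `n a i`), so for all surfaces, and for `H ^ 1` of all abelian varieties, if
`n ≥ 4`; it also holds if `U` has potentially good reduction outside of `K` primes. As the theorem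
holds for all powers `W ^ {⊗ b}`, it concerns all products `U` of such varieties: for 100 percent of
the `(t a)`, all `ℓ` and ALL these `U` at the same time, the Tate conjecture for the products of
powers of the `M a i (t a)` with `U` is equivalent to the Tate conjecture for `U`. For `W = 0` it is
the Tate conjecture for all products of powers of the `M a i (t a)`.

For a fixed prime `ℓ` and a fixed `U` one has (Serre, Terasoma, Cadoret-Tamagawa) results on the
image of Galois for `t` outside of a thin or finite set, which depends on `ℓ` and on `U`; the new point
is that almost all tuples are good for all `ℓ`, all powers and all these varieties `U` at once.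

The proof: for 100 percent of the tuples there are, by a sieve (`Pool.Agent.N592.HP`, helper592;
`Pool.Agent.N279.HP`, helper279; the version for tuples in `Pool.Agent.N978.TP`, with helper225,
helper595 and helper603), at least `K + 2` prime numbers `p` such that the reduction of `t a` modulo
`p` is a zero of `C a i` and the other `t b` have good reduction at `p`. As in
`MP_3703a7_ag.FamiliesLocalMonodromy` the Lie algebra of the operators on `V` and `W` which kill all
Tate classes has the full symplectic Lie algebra of `V` as its projection. If `N` is the logarithm of
the monodromy at `p`, the bracket with `N`, repeated `2 (n - 1)` times, kills all operators on `W`, but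
not all operators on `M a i`; so the Lie algebra contains the symplectic Lie algebra of `V`, acting
trivially on `W`. The first fundamental theorem of invariant theory (helper204) gives the result.
-/

set_option autoImplicit false

namespace Pool.Agent.Results.MP_2a05c8_ag.MembersTimesVarieties

open Polynomial Pool.Agent.Y114.TF Pool.Agent.Y114.MU Pool.Agent.N978.HP Pool.Agent.N978.TP

theorem result {A : Type} [Fintype A] [DecidableEq A] {ι : A → Type} [∀ a, Fintype (ι a)]
    [∀ a, DecidableEq (ι a)] {n : ∀ a, ι a → ℕ} (hn : ∀ a i, 0 < n a i)
    -- the realizations of the members of the families
    (R : ∀ a, Pt → Realizations (n a) Gal(AlgebraicClosure ℚ/ℚ)) (w m c : A → ℕ)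
    (D : A → MvPolynomial (Fin 2) ℤ) (P : ∀ a, ℕ → Pt → ι a → ℚ[X])
    (h : ∀ a, SymplecticFamily (R a) (w a) (m a) (c a) (D a) (P a))
    -- a cusp with maximally unipotent monodromy for each of the families
    (C C' : ∀ a, ι a → MvPolynomial (Fin 2) ℤ)
    (hC : ∀ a i, MaxUnipotentCusp (R a) (m a) (D a) (C a i) i)
    -- another cusp with infinite monodromy, or one member with three independent eigenvalues
    (hC' : ∀ a i, 4 ≤ n a i → SmallCusp (R a) (m a) (D a) (C' a i) i ∨
      ∃ t p, GoodAt (m a) (D a) t p ∧ ThreeIndependent (P a p t i)) (K : ℕ) :
    AlmostAllTuples fun t : A → Pt => (∀ a, InU (D a) (t a)) ∧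
      ∀ (ℓ : ℕ) [Fact ℓ.Prime] (W : Type) [AddCommGroup W] [Module ℚ_[ℓ] W]
        [FiniteDimensional ℚ_[ℓ] W] (σ : Representation ℚ_[ℓ] Gal(AlgebraicClosure ℚ/ℚ) W),
        QuasiUnipotent σ → (∀ a i, SmallOutside σ (n a i - 1) K) →
        TateClassesAreProducts (ι := Σ a, ι a) (fun x => (R x.1 (t x.1)).ρ ℓ x.2)
          (fun x => (R x.1 (t x.1)).ω ℓ x.2) (fun x => w x.1) σ (cyc ℓ) :=
  main Pool.Agent.N592.HP.t_SV Pool.Agent.N279.HP.t_DV t1 t2 (t3 cn t1) h hn C C' hC hC' K

end Pool.Agent.Results.MP_2a05c8_ag.MembersTimesVarieties
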