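import Pool.Agent.N211.TP4.Main2

/-!
# The Tate conjecture for all open subvarieties of all powers from one explicit product

Let `X` be a smooth projective variety over a finitely generated field `F` of characteristic zero,
let `b` be the sum of its Betti numbers, let `M = (4 b b! (b ^ 2 + 1)) ^ (b ^ 2 + 1)` and
`K = M b ^ M`. Let `A` be a product of abelian varieties with complex multiplication in whose
cohomology the duals of the lines in `H(X ^ K)` which are stable under open subgroups of the Galois
group occur (up to Tate twists and over finite extensions). If the Tate conjecture holds for the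
smooth projective variety `X ^ K × A` over all finite extensions of `F`, then it holds for every
open subvariety `U` of every power `X ^ n`, in all codimensions and over all finite extensions.

In the Lean statement `pw X n` is the product of `n + 1` copies of `X`, `T` is the theory
`X ↦ H(X, ℚ)` for an embedding of the algebraic closure of `F` in the field of complex numbers, `Γ` is
the Galois group of `F`, `E` is the field of `ℓ`-adic numbers, `V` is `H^(2j)(U)` and `r` is the
restriction.

The proof. Let `S` be a stable subspace of dimension `s` of `H^i(X ^ m)` with `m s ≤ K`. The line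
`Λ^s S` is contained in `H(X ^ (m s))`, and there is a dual line in `H(A)`. The product of these
lines is a Tate class on `X ^ (m s) × A`, so it is a combination of algebraic classes. These are fixed
by the Weil operators, and so the polarisations of `X` and of `A` give a functional on
`H(X ^ (m s))` which does not vanish on `Λ^s S` and is multiplied with the same character. This gives
an equivariant projection to `S`, so `H^i(X ^ m)` is semisimple for all `m ≤ M`. By the bounded power
theorem for the Tate conjecture (the Newton cocharacters of the Frobenius elements are bounded in
terms of `b`, the Tate classes are the classes which are fixed by them, and all relations follow from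
those of degree at most `M`) the Tate conjecture and the semisimplicity conjecture hold for all
powers of `X`. A Tate class on `U` is the restriction of a class on `X ^ n`, because of the weights,
and of a Tate class, because of the semisimplicity.
-/

open CategoryTheory AlgebraicGeometry

universe u

namespace Pool.Agent.Results.MP_2a05c8_ag.OpensFromOneProduct

open Pool.Agent.H914 Pool.Agent.Y121.AHS Pool.Agent.N211.TP2 Pool.Agent.N211.TP3
  Pool.Agent.N211.TP4

/-- **The Tate conjecture for all open subvarieties of all powers of `X` from one product.** -/
theorem result {k : Type u} [Field k] {𝒱 : VarClass k} {ops : CycleOps 𝒱} (T : HodgeTheory ops)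
    {X A : 𝒱.Obj} (ψ : Bil T.W.K (T.W.H X)) (hψ : IsPolarisation T X ψ)
    {E : Type} [Field E] [Algebra T.W.K E] [TopologicalSpace E] [IsTopologicalRing E] [T2Space E]
    (hE : Nonempty (E →+* ℂ)) {Γ : Type} [Group Γ] [TopologicalSpace Γ] [IsTopologicalGroup Γ]
    (χ : Γ → E) (ρ : ∀ n, Γ → PowH T E X n → PowH T E X n)
    (hG : IsGalois (cohOps T E ψ) χ ρ) (hA : IsArithmetic (cohOps T E ψ) χ ρ)
    (hC : ∀ n j, ∀ x ∈ cycClasses T E X n j, IsTate (cohOps T E ψ) χ ρ j x)
    {N : ℕ} (hN : productExponent (cohOps T E ψ).betti ≤ N + 1)
    {σA : Γ → PowH T E A 0 → PowH T E A 0} {σP : Γ → ProdH T E X A N → ProdH T E X A N}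
    (hP : HasDualLines E (prodOps T E X A N) χ (ρ N) σA σP)
    (hT : TateForProduct (prodOps T E X A N) χ σP)
    {n j : ℕ} {V : Type} [AddCommGroup V] [Module E V] {σ : Γ → V → V} {r : PowH T E X n → V}
    (hr : IsRestriction E ((cohOps T E ψ).deg n (2 * j)) χ (ρ n) σ r j) {v : V}
    (hv : ∃ Δ, IsEigen Δ (fun _ => 1) (fun g => χ g ^ j) σ v) :
    v ∈ Submodule.span E (r '' cycClasses T E X n j) :=
  main2 hψ hE hG hA hC hP hT hN hr hv

end Pool.Agent.Results.MP_2a05c8_ag.OpensFromOneProduct
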